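import Pool.Agent.H752.KM.Stubs
import Pool.Agent.H620R2.Gauge.A2

/-!
# Task K6 of project KM: the test language is in `NP` relative to the oracle
-/

namespace Pool.Agent.H752.KM

open Pool.Agent.NPC Pool.Agent.H620R2.Gauge Pool.Agent.H622R2

namespace K6

theorem poly_replicate {α : Type} [TEnc α] {n : α → ℕ} (hn : UPoly n) (b : Bool) :
    Poly (fun a => List.replicate (n a) b) := by
  have h := NPC.Poly.map (F := fun (_ : α) (_ : Unit) => b) hn (NPC.Poly.const b)
  exact h.congr fun a => by simp

/-- the questions -/
noncomputable def Q (P : Polynomial ℕ) (y : List Bool) : List (List Bool) :=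
  (List.range (3 * P.eval (unpair y).2.length)).map (fun i =>
    pairBits (unpair y).2 ((unpair y).1 ++
      List.replicate (min i (3 * P.eval (unpair y).2.length)) true))

/-- the verdict -/
noncomputable def H (P : Polynomial ℕ) (y : List Bool × List Bool) : List Bool :=
  [decide ((unpair y.1).1.length = P.eval (unpair y.1).2.length) &&
    decide (valB y.2 * (valB ((unpair y.1).1 ++ [true]) + 1) <
      valB (List.replicate (3 * P.eval (unpair y.1).2.length) false ++ [true]))]

theorem poly_Q (P : Polynomial ℕ) : Poly (Q P) := by
  have hw : Poly (fun y : List Bool => (unpair y).1) := Poly.fst poly_unpair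
  have hx : Poly (fun y : List Bool => (unpair y).2) := Poly.snd poly_unpair
  unfold Q
  refine NPC.Poly.map (F := fun (y : List Bool) (i : ℕ) =>
    pairBits (unpair y).2 ((unpair y).1 ++
      List.replicate (min i (3 * P.eval (unpair y).2.length)) true))
    (UPoly.range (UPoly.mul (UPoly.const 3) (UPoly.eval (UPoly.length hx) P))) ?_
  have hx' : Poly (fun p : List Bool × ℕ => (unpair p.1).2) := hx.comp (Poly.fst Poly.id)
  have hw' : Poly (fun p : List Bool × ℕ => (unpair p.1).1) := hw.comp (Poly.fst Poly.id)
  have hu : UPoly (fun p : List Bool × ℕ => 3 * P.eval (unpair p.1).2.length) :=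
    UPoly.mul (UPoly.const 3) (UPoly.eval (UPoly.length hx') P)
  refine poly_pairBits hx' (Poly.append hw' (poly_replicate ?_ true))
  exact UPoly.of_le (Poly.min (Poly.snd Poly.id) hu.toPoly) hu (fun p => min_le_right _ _)

theorem poly_H (P : Polynomial ℕ) : Poly (H P) := by
  have hw : Poly (fun y : List Bool => (unpair y).1) := Poly.fst poly_unpair
  have hx : Poly (fun y : List Bool => (unpair y).2) := Poly.snd poly_unpair
  have hx' : Poly (fun p : List Bool × List Bool => (unpair p.1).2) := hx.comp (Poly.fst Poly.id)
  have hw' : Poly (fun p : List Bool × List Bool => (unpair p.1).1) := hw.comp (Poly.fst Poly.id)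
  have hu : UPoly (fun p : List Bool × List Bool => P.eval (unpair p.1).2.length) :=
    UPoly.eval (UPoly.length hx') P
  have ht : Poly (fun _ : List Bool × List Bool => [true]) := NPC.Poly.const [true]
  unfold H
  refine Poly.cons (Poly.and (Poly.decide_eq (Poly.length hw') hu.toPoly) ?_)
    (NPC.Poly.const [])
  refine Poly.decide_lt (Poly.mul (Poly.valBits (Poly.snd Poly.id))
    (Poly.succ (Poly.valBits (Poly.append hw' ht)))) (Poly.valBits (Poly.append ?_ ht))
  exact poly_replicate (UPoly.mul (UPoly.const 3) hu) false

end K6

theorem t_np : St_np := by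
  intro P A
  refine ⟨fun y => K6.H P (y, (K6.Q P y).map A), P, IsFP.tt (K6.poly_Q P) (K6.poly_H P),
    fun x => ?_⟩
  have key : ∀ w : List Bool, K6.H P (pairBits w x, (K6.Q P (pairBits w x)).map A) = [true] ↔
      (w.length = P.eval x.length ∧ HitV (P.eval x.length) w (fun i => A (qst x w i))) := by
    intro w
    have h1 : (K6.Q P (pairBits w x)).map A =
        (List.range (3 * P.eval x.length)).map (fun i => A (qst x w i)) := by
      unfold K6.Q qst
      simp only [unpair_pairBits, List.map_map]
      apply List.map_congr_left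
      intro i hi
      simp only [Function.comp]
      rw [min_eq_left (List.mem_range.1 hi).le]
    rw [h1]
    unfold K6.H HitV
    simp only [unpair_pairBits, List.cons.injEq, and_true, Bool.and_eq_true, decide_eq_true_eq]
    rw [valB_replicate_false]
    simp
  constructor
  · rintro ⟨w, h1, h2⟩
    exact ⟨w, h1.le, (key w).2 ⟨h1, h2⟩⟩
  · rintro ⟨w, _, h⟩
    exact ⟨w, (key w).1 h⟩

end Pool.Agent.H752.KM
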